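import Pool.Agent.H83.LS.Targets1
import Pool.Agent.H83.LS.Basic

/-!
# MP_ee74d2_an, module CORTH: local orthogonality of caps
-/

set_option autoImplicit false

namespace Pool.Agent.H33.LS.CORTH

open MeasureTheory Set Pool.Agent.H83.LS
open scoped ENNReal NNReal

/-- integers in an interval of length `6` -/
theorem icc7 (x : ℝ) : (Finset.Icc ⌈x - 3⌉ ⌊x + 3⌋).card ≤ 7 := by
  rw [Int.card_Icc]
  have h1 : (⌊x + 3⌋ : ℝ) ≤ x + 3 := Int.floor_le _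
  have h2 : x - 3 ≤ (⌈x - 3⌉ : ℝ) := Int.le_ceil _
  have h3 : ((⌊x + 3⌋ : ℤ) : ℝ) - ((⌈x - 3⌉ : ℤ) : ℝ) ≤ 6 := by linarith
  have h4 : ⌊x + 3⌋ - ⌈x - 3⌉ ≤ 6 := by exact_mod_cast h3
  omega

theorem corth (hORTH : T_ORTH) (hCUT : T_CUT) (hTCU : T_TCU) : T_CORTH := by
  obtain ⟨C, hC⟩ := hORTH
  obtain ⟨-, -, hcap, hpart, -⟩ := hCUT
  refine ⟨C * 49, ?_⟩
  intro a ha l s y₀ b hl hb
  have hl0 : 0 < l := by linarith
  set g : capsQ l → ℝ × ℝ → ℂ := fun c ζ => e (s * ph a ζ) * (cp l c ζ * b ζ) with hg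
  have hgTC : ∀ c, TC (g c) := by
    intro c
    refine hTCU a ha s _ (TC.mul ((hcap l c hl0).1.1) hb.1) ?_
    intro ζ hζ
    have := (hb.2 ζ (right_ne_zero_of_mul hζ)).1
    linarith
  have hsum : U a s b = Fi (fun ζ => ∑ c, g c ζ) := by
    funext y
    unfold U
    congr 1
    funext ζ
    simp only [hg]
    rw [← Finset.mul_sum, ← Finset.sum_mul, Finset.sum_coe_sort (capsQ l) (fun c => cp l c ζ)]
    by_cases hz : b ζ = 0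
    · rw [hz, mul_zero, mul_zero, mul_zero]
    · rw [hpart l hl ζ (hb.2 ζ hz), one_mul]
  rw [hsum]
  have hm : ∀ ζ : ℝ × ℝ, {c : capsQ l | ∃ ζ' : ℝ × ℝ, g c ζ' ≠ 0 ∧ |ζ'.1 - ζ.1| ≤ 2 / l ∧
      |ζ'.2 - ζ.2| ≤ 2 / l}.ncard ≤ 49 := by
    intro ζ
    set T : Finset (ℤ × ℤ) := Finset.Icc ⌈l * ζ.1 - 3⌉ ⌊l * ζ.1 + 3⌋ ×ˢ
      Finset.Icc ⌈l * ζ.2 - 3⌉ ⌊l * ζ.2 + 3⌋ with hT
    have hTc : T.card ≤ 49 := by
      rw [hT, Finset.card_product]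
      exact Nat.mul_le_mul (icc7 _) (icc7 _)
    refine le_trans ?_ hTc
    rw [← Set.ncard_coe_finset]
    refine Set.ncard_le_ncard_of_injOn (fun c => (c : ℤ × ℤ)) ?_
      (Subtype.val_injective.injOn) T.finite_toSet
    rintro c ⟨ζ', h1, h2, h3⟩
    have hcp : cp l c ζ' ≠ 0 := left_ne_zero_of_mul (right_ne_zero_of_mul h1)
    obtain ⟨h4, h5⟩ := (hcap l c hl0).2.2.2.2.1 ζ' hcp
    have h6 : |l * ζ'.1 - l * ζ.1| ≤ 2 := by
      rw [← mul_sub, abs_mul, abs_of_pos hl0]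
      calc l * |ζ'.1 - ζ.1| ≤ l * (2 / l) := by gcongr
        _ = 2 := by field_simp
    have h7 : |l * ζ'.2 - l * ζ.2| ≤ 2 := by
      rw [← mul_sub, abs_mul, abs_of_pos hl0]
      calc l * |ζ'.2 - ζ.2| ≤ l * (2 / l) := by gcongr
        _ = 2 := by field_simp
    rw [abs_le] at h4 h5 h6 h7
    simp only [hT, Finset.coe_product, Finset.coe_Icc, mem_prod, mem_Icc, Int.ceil_le, Int.le_floor]
    refine ⟨⟨?_, ?_⟩, ?_, ?_⟩ <;> linarith [h4.1, h4.2, h5.1, h5.2, h6.1, h6.2, h7.1, h7.2]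
  have := hC (capsQ l) g l y₀ 49 hl0 hgTC hm
  refine this.trans (le_of_eq ?_)
  rw [← Finset.sum_coe_sort (capsQ l) (fun c => En l y₀ (U a s (fun ζ => cp l c ζ * b ζ)))]
  push_cast
  rfl

end Pool.Agent.H33.LS.CORTH
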