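import Pool.Agent.H33.LS.ORTH

/-!
# MP_ee74d2_an, module LE: weighted `L²` bound for families of multipliers
-/

set_option autoImplicit false

namespace Pool.Agent.H33.LS.LE

open MeasureTheory Set Pool.Agent.H83.LS Pool.Agent.H33.LS.ORTH
open scoped ENNReal NNReal

/-- square root of the weight -/
noncomputable def oh (r : ℝ) (y : ℝ × ℝ) : ℝ := (((1 + |y.1| / r) * (1 + |y.2| / r)) ^ 4)⁻¹

theorem oh_sq (r : ℝ) (y : ℝ × ℝ) : om r y = oh r y ^ 2 := by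
  unfold om oh
  rw [inv_pow, ← pow_mul]

theorem oh_pos {r : ℝ} (hr : 0 < r) (y : ℝ × ℝ) : 0 < oh r y := by
  unfold oh; positivity

theorem oh_shift {r : ℝ} (hr : 0 < r) (x h : ℝ × ℝ) :
    oh r (x + h) ≤ ((1 + |h.1| / r) * (1 + |h.2| / r)) ^ 4 * oh r x := by
  have h1 := om_shift r hr x h
  rw [oh_sq, oh_sq] at h1
  have h2 : ((1 + |h.1| / r) * (1 + |h.2| / r)) ^ 8 * oh r x ^ 2 =
      (((1 + |h.1| / r) * (1 + |h.2| / r)) ^ 4 * oh r x) ^ 2 := by ring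
  rw [h2] at h1
  have h3 : 0 ≤ ((1 + |h.1| / r) * (1 + |h.2| / r)) ^ 4 * oh r x := by
    have := oh_pos hr x
    positivity
  exact (pow_le_pow_iff_left₀ (oh_pos hr _).le h3 (by norm_num)).1 h1

theorem measurable_oh (r : ℝ) : Measurable (oh r) := by
  unfold oh
  fun_prop

/-- the far part -/
noncomputable def far (K G : ℝ × ℝ → ℂ) (r : ℝ) (c y : ℝ × ℝ) : ℝ≥0∞ :=
  ∫⁻ y' in {y' : ℝ × ℝ | r ≤ ‖y - y' - c‖}, ‖K (y - y')‖ₑ * ‖G y'‖ₑ

theorem measurable_far {K G : ℝ × ℝ → ℂ} (hK : Continuous K) (hG : Continuous G) (r : ℝ)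
    (c : ℝ × ℝ) : Measurable (far K G r c) := by
  have h1 : ∀ y : ℝ × ℝ, MeasurableSet {y' : ℝ × ℝ | r ≤ ‖y - y' - c‖} := fun y =>
    (isClosed_le continuous_const (by fun_prop)).measurableSet
  have h2 : far K G r c = fun y => ∫⁻ y', {p : (ℝ × ℝ) × (ℝ × ℝ) | r ≤ ‖p.1 - p.2 - c‖}.indicator
      (fun p => ‖K (p.1 - p.2)‖ₑ * ‖G p.2‖ₑ) (y, y') := by
    funext y
    unfold far
    rw [← lintegral_indicator (h1 y)]
    rfl
  rw [h2]
  have h3 : Measurable ({p : (ℝ × ℝ) × (ℝ × ℝ) | r ≤ ‖p.1 - p.2 - c‖}.indicator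
      (fun p => ‖K (p.1 - p.2)‖ₑ * ‖G p.2‖ₑ)) := by
    refine Measurable.indicator ?_ (isClosed_le continuous_const (by fun_prop)).measurableSet
    exact ((hK.comp (by fun_prop)).enorm.measurable).mul ((hG.comp (by fun_prop)).enorm.measurable)
  exact h3.lintegral_prod_right'

theorem far_bd (hYG : T_YG) {K G : ℝ × ℝ → ℂ} (hK : Continuous K) (hG : Continuous G) {r : ℝ}
    (hr : 0 < r) (c y₀ : ℝ × ℝ) :
    ∫⁻ y, ENNReal.ofReal (om r (y - y₀)) * far K G r c y ^ 2 ≤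
      (∫⁻ z in {z : ℝ × ℝ | r ≤ ‖z - c‖}, ‖K z‖ₑ *
        ENNReal.ofReal (((1 + |z.1 - c.1| / r) * (1 + |z.2 - c.2| / r)) ^ 4)) ^ 2 *
        En r (y₀ - c) G := by
  have hmc : MeasurableSet {z : ℝ × ℝ | r ≤ ‖z - c‖} :=
    (isClosed_le continuous_const (by fun_prop)).measurableSet
  set k : ℝ × ℝ → ℝ≥0∞ := {z : ℝ × ℝ | r ≤ ‖z - c‖}.indicator (fun z => ‖K z‖ₑ *
        ENNReal.ofReal (((1 + |z.1 - c.1| / r) * (1 + |z.2 - c.2| / r)) ^ 4)) with hk
  set H : ℝ × ℝ → ℝ≥0∞ := fun y' => ENNReal.ofReal (oh r (y' + c - y₀)) * ‖G y'‖ₑ with hH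
  have hkm : Measurable k := by
    refine Measurable.indicator ?_ hmc
    refine hK.enorm.measurable.mul ?_
    exact ENNReal.measurable_ofReal.comp (by fun_prop)
  have hHm : Measurable H := by
    refine Measurable.mul ?_ hG.enorm.measurable
    exact ENNReal.measurable_ofReal.comp ((measurable_oh r).comp (by fun_prop))
  have hY := hYG (ℝ × ℝ) volume k H 2 hkm hHm (by norm_num)
  have e1 : (∫⁻ y, k y) = ∫⁻ z in {z : ℝ × ℝ | r ≤ ‖z - c‖}, ‖K z‖ₑ *
        ENNReal.ofReal (((1 + |z.1 - c.1| / r) * (1 + |z.2 - c.2| / r)) ^ 4) :=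
    lintegral_indicator hmc _
  have e2 : ∫⁻ y, H y ^ (2 : ℝ) = En r (y₀ - c) G := by
    unfold En
    refine lintegral_congr fun y => ?_
    simp only [hH]
    rw [show y - (y₀ - c) = y + c - y₀ by ring, ENNReal.rpow_two, mul_pow,
      ← ENNReal.ofReal_pow (oh_pos hr _).le, ← oh_sq]
  rw [e1, e2, ENNReal.rpow_two] at hY
  refine le_trans (lintegral_mono fun y => ?_) hY
  simp only
  rw [ENNReal.rpow_two, oh_sq, ENNReal.ofReal_pow (oh_pos hr _).le, ← mul_pow]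
  refine pow_le_pow_left₀ (by positivity) ?_ 2
  unfold far
  have hmy : MeasurableSet {y' : ℝ × ℝ | r ≤ ‖y - y' - c‖} :=
    (isClosed_le continuous_const (by fun_prop)).measurableSet
  rw [← lintegral_const_mul' _ _ ENNReal.ofReal_ne_top, ← lintegral_indicator hmy]
  refine lintegral_mono fun y' => ?_
  by_cases hy : r ≤ ‖y - y' - c‖
  · have m1 : y' ∈ {y' : ℝ × ℝ | r ≤ ‖y - y' - c‖} := hy
    have m2 : y - y' ∈ {z : ℝ × ℝ | r ≤ ‖z - c‖} := hy
    rw [indicator_of_mem m1]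
    simp only [hk, hH]
    rw [indicator_of_mem m2]
    have h3 := oh_shift hr (y' + c - y₀) (y - y' - c)
    rw [show y' + c - y₀ + (y - y' - c) = y - y₀ by ring] at h3
    have h4 := ENNReal.ofReal_le_ofReal h3
    rw [ENNReal.ofReal_mul (by positivity)] at h4
    simp only [Prod.fst_sub, Prod.snd_sub] at h4 ⊢
    calc ENNReal.ofReal (oh r (y - y₀)) * (‖K (y - y')‖ₑ * ‖G y'‖ₑ) ≤
        (ENNReal.ofReal (((1 + |y.1 - y'.1 - c.1| / r) * (1 + |y.2 - y'.2 - c.2| / r)) ^ 4) *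
          ENNReal.ofReal (oh r (y' + c - y₀))) * (‖K (y - y')‖ₑ * ‖G y'‖ₑ) := by gcongr
      _ = _ := by ring
  · have m1 : y' ∉ {y' : ℝ × ℝ | r ≤ ‖y - y' - c‖} := hy
    rw [indicator_of_notMem m1]
    exact bot_le

/-- splitting a convolution -/
theorem split {K G : ℝ × ℝ → ℂ} {r : ℝ} (c x y : ℝ × ℝ)
    (hy : ‖y - x‖ < r) :
    ‖∫ y', K (y - y') * G y'‖ₑ ≤
      ‖∫ y', K (y - y') * ({y' : ℝ × ℝ | ‖y' + c - x‖ < 2 * r}.indicator G y')‖ₑ +
        far K G r c y := by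
  by_cases hint : Integrable fun y' => K (y - y') * G y'
  · have hms : MeasurableSet {y' : ℝ × ℝ | ‖y' + c - x‖ < 2 * r} :=
      (isOpen_lt (by fun_prop) continuous_const).measurableSet
    rw [← integral_add_compl hms hint]
    refine (enorm_add_le _ _).trans (add_le_add (le_of_eq ?_) ?_)
    · congr 1
      rw [← integral_indicator hms]
      congr 1
      funext y'
      by_cases h : y' ∈ {y' : ℝ × ℝ | ‖y' + c - x‖ < 2 * r}
      · rw [indicator_of_mem h, indicator_of_mem h]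
      · rw [indicator_of_notMem h, indicator_of_notMem h, mul_zero]
    · refine (enorm_integral_le_lintegral_enorm _).trans ?_
      unfold far
      simp only [enorm_mul]
      refine lintegral_mono_set ?_
      intro y' hy'
      have h1 : 2 * r ≤ ‖y' + c - x‖ := not_lt.1 hy'
      have h2 : ‖y' + c - x‖ ≤ ‖y - y' - c‖ + ‖y - x‖ := by
        have : y' + c - x = (y - x) - (y - y' - c) := by ring
        rw [this]
        exact (norm_sub_le _ _).trans (by rw [add_comm])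
      change r ≤ ‖y - y' - c‖
      linarith
  · rw [integral_undef hint]
    simp

theorem om_near {r : ℝ} (hr : 0 < r) {t : ℝ} (x y : ℝ × ℝ) (h : ‖y - x‖ ≤ t * r)
    (y₀ : ℝ × ℝ) (ht : 0 ≤ t) : om r (y - y₀) ≤ (1 + t) ^ 16 * om r (x - y₀) := by
  have h1 := om_shift r hr (x - y₀) (y - x)
  rw [show x - y₀ + (y - x) = y - y₀ by ring] at h1
  refine h1.trans ?_
  refine mul_le_mul_of_nonneg_right ?_ (om_pos r hr _).le
  have h2 : |(y - x).1| / r ≤ t := by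
    rw [div_le_iff₀ hr]
    exact (norm_fst_le (y - x)).trans h
  have h3 : |(y - x).2| / r ≤ t := by
    rw [div_le_iff₀ hr]
    exact (norm_snd_le (y - x)).trans h
  calc ((1 + |(y - x).1| / r) * (1 + |(y - x).2| / r)) ^ 8 ≤ ((1 + t) * (1 + t)) ^ 8 := by
        gcongr
    _ = (1 + t) ^ 16 := by ring

/-- Plancherel for the near part -/
theorem near_pl (hPLB : T_PLB) {ι : Type} [Fintype ι] {χ : ι → ℝ × ℝ → ℂ} (hχ : ∀ i, TC (χ i))
    {m : ℝ≥0∞} (hm : ∀ ζ, ∑ i, ‖χ i ζ‖ₑ ^ 2 ≤ m) {g : ℝ × ℝ → ℂ} (hg : BC g) :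
    ∑ i, ∫⁻ y, ‖∫ y', Fi (χ i) (y - y') * g y'‖ₑ ^ 2 ≤ m * ∫⁻ y, ‖g y‖ₑ ^ 2 := by
  obtain ⟨h1, h2, h3⟩ := hPLB g hg
  have h4 : ∀ i, ∫⁻ y, ‖∫ y', Fi (χ i) (y - y') * g y'‖ₑ ^ 2 = ∫⁻ ζ, ‖χ i ζ * Ff g ζ‖ₑ ^ 2 := by
    intro i
    have hT : TC (fun ζ => χ i ζ * Ff g ζ) := by
      have := TC.mul h1 (hχ i)
      simpa only [mul_comm] using this
    rw [← planch hPLB (TC.cc hT)]
    refine lintegral_congr fun y => ?_
    rw [h3 (χ i) (hχ i) y]
  simp only [h4]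
  rw [← lintegral_finsetSum' _ (fun i _ => ?_)]
  · rw [← h2]
    by_cases hmt : m = ⊤
    · by_cases h0 : ∫⁻ ζ, ‖Ff g ζ‖ₑ ^ 2 = 0
      · rw [h0, mul_zero]
        rw [lintegral_eq_zero_iff (h1.continuous.enorm.measurable.pow_const 2)] at h0
        have : ∫⁻ ζ, ∑ i, ‖χ i ζ * Ff g ζ‖ₑ ^ 2 = 0 := by
          rw [← lintegral_zero]
          refine lintegral_congr_ae ?_
          filter_upwards [h0] with ζ hζ
          have h5 : ‖Ff g ζ‖ₑ ^ 2 = 0 := hζ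
          simp only [enorm_mul, mul_pow, h5, mul_zero, Finset.sum_const_zero]
        rw [this]
      · rw [hmt, ENNReal.top_mul h0]; exact le_top
    · rw [← lintegral_const_mul' _ _ hmt]
      refine lintegral_mono fun ζ => ?_
      simp only [enorm_mul, mul_pow]
      rw [← Finset.sum_mul]
      gcongr
      exact hm ζ
  · exact (((hχ i).1.continuous.mul h1.continuous).enorm.measurable.pow_const 2).aemeasurable

/-- volume of balls -/
theorem vol_ball (x : ℝ × ℝ) {r : ℝ} (hr : 0 < r) :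
    volume {y : ℝ × ℝ | ‖y - x‖ < r} = ENNReal.ofReal (4 * r ^ 2) := by
  have : {y : ℝ × ℝ | ‖y - x‖ < r} = Metric.ball x r := by
    ext y; rw [mem_ball_iff_norm]; rfl
  rw [this, ← Prod.mk.eta (p := x), ← ball_prod_same, Measure.volume_eq_prod, Measure.prod_prod,
    Real.volume_ball, Real.volume_ball, ← ENNReal.ofReal_mul (by positivity)]
  congr 1
  ring

/-- averaging over balls -/
theorem avg {F : ℝ × ℝ → ℝ≥0∞} (hF : Measurable F) {r : ℝ} (hr : 0 < r) (c : ℝ × ℝ) :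
    (Measurable fun x => ∫⁻ y in {y : ℝ × ℝ | ‖y + c - x‖ < r}, F y) ∧
    ∫⁻ x, ∫⁻ y in {y : ℝ × ℝ | ‖y + c - x‖ < r}, F y = ENNReal.ofReal (4 * r ^ 2) * ∫⁻ y, F y := by
  have hms : ∀ x : ℝ × ℝ, MeasurableSet {y : ℝ × ℝ | ‖y + c - x‖ < r} := fun x =>
    (isOpen_lt (by fun_prop) continuous_const).measurableSet
  have h1 : ∀ x : ℝ × ℝ, ∫⁻ y in {y : ℝ × ℝ | ‖y + c - x‖ < r}, F y =
      ∫⁻ y, {p : (ℝ × ℝ) × (ℝ × ℝ) | ‖p.2 + c - p.1‖ < r}.indicator (fun p => F p.2) (x, y) := by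
    intro x
    rw [← lintegral_indicator (hms x)]
    rfl
  simp only [h1]
  have hmeas : Measurable ({p : (ℝ × ℝ) × (ℝ × ℝ) | ‖p.2 + c - p.1‖ < r}.indicator
      (fun p => F p.2)) :=
    (hF.comp measurable_snd).indicator (isOpen_lt (by fun_prop) continuous_const).measurableSet
  refine ⟨hmeas.lintegral_prod_right', ?_⟩
  have hsw := lintegral_lintegral_swap (μ := (volume : Measure (ℝ × ℝ)))
    (ν := (volume : Measure (ℝ × ℝ)))
    (f := fun x y => {p : (ℝ × ℝ) × (ℝ × ℝ) | ‖p.2 + c - p.1‖ < r}.indicator (fun p => F p.2) (x, y))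
    hmeas.aemeasurable
  rw [hsw, ← lintegral_const_mul _ hF]
  refine lintegral_congr fun y => ?_
  have h2 : ∀ x : ℝ × ℝ, {p : (ℝ × ℝ) × (ℝ × ℝ) | ‖p.2 + c - p.1‖ < r}.indicator
      (fun p => F p.2) (x, y) = {x : ℝ × ℝ | ‖x - (y + c)‖ < r}.indicator (fun _ => F y) x := by
    intro x
    simp only [indicator, mem_ofPred_eq]
    rw [norm_sub_rev]
  simp only [h2]
  rw [lintegral_indicator (isOpen_lt (by fun_prop) continuous_const).measurableSet,
    setLIntegral_const, vol_ball _ hr, mul_comm]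

theorem leW (hPLB : T_PLB) (hCONV : T_CONV) (hDEC : T_DEC) (hYG : T_YG) : T_LE := by
  refine ⟨8 * 6 ^ 16 + 2, ?_⟩
  intro ι _ χ r c y₀ m A b hr hχ hb hm hA
  have hKc : ∀ i, Continuous (Fi (χ i)) := fun i => (hDEC _ (hχ i)).1
  have hGc : Continuous (Fi b) := (hDEC _ hb).1
  have hb' : ∀ i, TC (fun ζ => χ i ζ * b ζ) := fun i => TC.mul (hχ i).1 hb
  have hLc : ∀ i, Continuous (Fi (fun ζ => χ i ζ * b ζ)) := fun i => (hDEC _ (hb' i)).1
  have hconv : ∀ i y, Fi (fun ζ => χ i ζ * b ζ) y = ∫ y', Fi (χ i) (y - y') * Fi b y' :=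
    fun i y => hCONV _ _ (hχ i) hb y
  have hωm : ∀ w : ℝ × ℝ, Measurable fun y : ℝ × ℝ => ENNReal.ofReal (om r (y - w)) := fun w =>
    ENNReal.measurable_ofReal.comp ((measurable_om r).comp (by fun_prop))
  have hBm : ∀ x : ℝ × ℝ, MeasurableSet {y : ℝ × ℝ | ‖y + 0 - x‖ < r} := fun x =>
    (isOpen_lt (by fun_prop) continuous_const).measurableSet
  have hBm' : ∀ x : ℝ × ℝ, MeasurableSet {y' : ℝ × ℝ | ‖y' + c - x‖ < 2 * r} := fun x =>
    (isOpen_lt (by fun_prop) continuous_const).measurableSet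
  set F1 : ι → ℝ × ℝ → ℝ≥0∞ := fun i y => ENNReal.ofReal (om r (y - y₀)) *
    ‖Fi (fun ζ => χ i ζ * b ζ) y‖ₑ ^ 2 with hF1
  set F2 : ℝ × ℝ → ℝ≥0∞ := fun y => ENNReal.ofReal (om r (y - (y₀ - c))) * ‖Fi b y‖ₑ ^ 2 with hF2
  set F3 : ι → ℝ × ℝ → ℝ≥0∞ := fun i y => ENNReal.ofReal (om r (y - y₀)) *
    far (Fi (χ i)) (Fi b) r c y ^ 2 with hF3
  have hF1m : ∀ i, Measurable (F1 i) := fun i =>
    (hωm y₀).mul ((hLc i).enorm.measurable.pow_const 2)
  have hF2m : Measurable F2 := (hωm _).mul (hGc.enorm.measurable.pow_const 2)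
  have hF3m : ∀ i, Measurable (F3 i) := fun i =>
    (hωm y₀).mul ((measurable_far (hKc i) hGc r c).pow_const 2)
  have key : ∀ x : ℝ × ℝ, ∑ i, ∫⁻ y in {y : ℝ × ℝ | ‖y + 0 - x‖ < r}, F1 i y ≤
      2 * 6 ^ 16 * m * (∫⁻ y in {y' : ℝ × ℝ | ‖y' + c - x‖ < 2 * r}, F2 y) +
      2 * ∑ i, ∫⁻ y in {y : ℝ × ℝ | ‖y + 0 - x‖ < r}, F3 i y := by
    intro x
    set g : ℝ × ℝ → ℂ := {y' : ℝ × ℝ | ‖y' + c - x‖ < 2 * r}.indicator (Fi b) with hg
    have hgBC : BC g := by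
      refine ⟨hGc.measurable.indicator (hBm' x), ⟨∫ ζ, ‖b ζ‖, fun y => ?_⟩,
        ⟨2 * r + ‖x - c‖, fun y hy => ?_⟩⟩
      · simp only [hg, indicator]
        split_ifs
        · exact norm_Fi_le b y
        · rw [norm_zero]; exact integral_nonneg fun _ => norm_nonneg _
      · apply indicator_of_notMem
        intro h
        have h1 : ‖y + c - x‖ < 2 * r := h
        have h2 : ‖y‖ ≤ ‖y + c - x‖ + ‖x - c‖ := by
          have : y = (y + c - x) + (x - c) := by ring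
          calc ‖y‖ = ‖(y + c - x) + (x - c)‖ := by rw [← this]
            _ ≤ _ := norm_add_le _ _
        linarith
    have hpl := near_pl hPLB hχ hm hgBC
    -- pointwise
    have hpt : ∀ i, ∀ y ∈ {y : ℝ × ℝ | ‖y + 0 - x‖ < r}, F1 i y ≤
        2 * (ENNReal.ofReal (2 ^ 16 * om r (x - y₀)) *
          ‖∫ y', Fi (χ i) (y - y') * g y'‖ₑ ^ 2) + 2 * F3 i y := by
      intro i y hy
      have hy' : ‖y - x‖ < r := by
        have : ‖y + 0 - x‖ < r := hy
        rwa [add_zero] at this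
      have h1 := split (K := Fi (χ i)) (G := Fi b) c x y hy'
      rw [← hconv, ← hg] at h1
      simp only [hF1, hF3]
      have h2 : ENNReal.ofReal (om r (y - y₀)) ≤ ENNReal.ofReal (2 ^ 16 * om r (x - y₀)) := by
        apply ENNReal.ofReal_le_ofReal
        have := om_near hr (t := 1) x y (by rw [one_mul]; exact hy'.le) y₀ zero_le_one
        norm_num at this ⊢
        exact this
      have h3 : ∀ a b : ℝ≥0∞, (a + b) ^ 2 ≤ 2 * a ^ 2 + 2 * b ^ 2 := by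
        intro a b
        have := ENNReal.rpow_add_le_mul_rpow_add_rpow a b (p := 2) (by norm_num)
        have e1 : (2 : ℝ≥0∞) ^ ((2 : ℝ) - 1) = 2 := by norm_num
        rw [e1, ENNReal.rpow_two, ENNReal.rpow_two, ENNReal.rpow_two, mul_add] at this
        exact this
      calc ENNReal.ofReal (om r (y - y₀)) * ‖Fi (fun ζ => χ i ζ * b ζ) y‖ₑ ^ 2
          ≤ ENNReal.ofReal (om r (y - y₀)) * (‖∫ y', Fi (χ i) (y - y') * g y'‖ₑ +
            far (Fi (χ i)) (Fi b) r c y) ^ 2 := by gcongr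
        _ ≤ ENNReal.ofReal (om r (y - y₀)) * (2 * ‖∫ y', Fi (χ i) (y - y') * g y'‖ₑ ^ 2 +
            2 * far (Fi (χ i)) (Fi b) r c y ^ 2) := by gcongr; exact h3 _ _
        _ = 2 * (ENNReal.ofReal (om r (y - y₀)) * ‖∫ y', Fi (χ i) (y - y') * g y'‖ₑ ^ 2) +
            2 * (ENNReal.ofReal (om r (y - y₀)) * far (Fi (χ i)) (Fi b) r c y ^ 2) := by ring
        _ ≤ _ := by gcongr
    have hcm : ∀ i, Measurable fun y => ‖∫ y', Fi (χ i) (y - y') * g y'‖ₑ ^ 2 := by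
      intro i
      obtain ⟨h1, -, h3⟩ := hPLB g hgBC
      have hT : TC (fun ζ => χ i ζ * Ff g ζ) := by
        have := TC.mul h1 (hχ i)
        simpa only [mul_comm] using this
      have h4 : (fun y => ∫ y', Fi (χ i) (y - y') * g y') = Fi (fun ζ => χ i ζ * Ff g ζ) := by
        funext y; exact (h3 (χ i) (hχ i) y).symm
      have h5 := (hDEC _ hT).1
      rw [← h4] at h5
      exact h5.enorm.measurable.pow_const 2
    have hsum : ∑ i, ∫⁻ y in {y : ℝ × ℝ | ‖y + 0 - x‖ < r}, F1 i y ≤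
        2 * (ENNReal.ofReal (2 ^ 16 * om r (x - y₀)) * (m * ∫⁻ y, ‖g y‖ₑ ^ 2)) +
        2 * ∑ i, ∫⁻ y in {y : ℝ × ℝ | ‖y + 0 - x‖ < r}, F3 i y := by
      calc ∑ i, ∫⁻ y in {y : ℝ × ℝ | ‖y + 0 - x‖ < r}, F1 i y
          ≤ ∑ i, (2 * (ENNReal.ofReal (2 ^ 16 * om r (x - y₀)) *
            ∫⁻ y, ‖∫ y', Fi (χ i) (y - y') * g y'‖ₑ ^ 2) +
            2 * ∫⁻ y in {y : ℝ × ℝ | ‖y + 0 - x‖ < r}, F3 i y) := by
            refine Finset.sum_le_sum fun i _ => ?_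
            refine (setLIntegral_mono' (hBm x) (hpt i)).trans ?_
            rw [lintegral_add_left (((hcm i).const_mul _).const_mul _),
              lintegral_const_mul _ ((hcm i).const_mul _), lintegral_const_mul _ (hcm i),
              lintegral_const_mul _ (hF3m i)]
            gcongr
            exact Measure.restrict_le_self
        _ = 2 * (ENNReal.ofReal (2 ^ 16 * om r (x - y₀)) *
            ∑ i, ∫⁻ y, ‖∫ y', Fi (χ i) (y - y') * g y'‖ₑ ^ 2) +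
            2 * ∑ i, ∫⁻ y in {y : ℝ × ℝ | ‖y + 0 - x‖ < r}, F3 i y := by
            rw [Finset.sum_add_distrib, Finset.mul_sum, Finset.mul_sum, Finset.mul_sum]
        _ ≤ _ := by gcongr
    refine hsum.trans (add_le_add ?_ le_rfl)
    have h6 : ENNReal.ofReal (2 ^ 16 * om r (x - y₀)) * ∫⁻ y, ‖g y‖ₑ ^ 2 ≤
        6 ^ 16 * ∫⁻ y in {y' : ℝ × ℝ | ‖y' + c - x‖ < 2 * r}, F2 y := by
      rw [← lintegral_const_mul' _ _ ENNReal.ofReal_ne_top,
        ← lintegral_const_mul' _ _ (by finiteness), ← lintegral_indicator (hBm' x)]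
      refine lintegral_mono fun y => ?_
      by_cases hy : y ∈ {y' : ℝ × ℝ | ‖y' + c - x‖ < 2 * r}
      · simp only [hg, hF2]
        rw [indicator_of_mem hy, indicator_of_mem hy, ← mul_assoc]
        gcongr
        have hy' : ‖y + c - x‖ < 2 * r := hy
        have := om_near hr (t := 2) (y + c) x (by rw [norm_sub_rev]; exact hy'.le) y₀ (by norm_num)
        rw [show y - (y₀ - c) = y + c - y₀ by ring]
        calc ENNReal.ofReal (2 ^ 16 * om r (x - y₀)) ≤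
            ENNReal.ofReal (6 ^ 16 * om r (y + c - y₀)) := by
              apply ENNReal.ofReal_le_ofReal
              have h7 : (6 : ℝ) ^ 16 = 2 ^ 16 * (1 + 2) ^ 16 := by norm_num
              rw [h7, mul_assoc]
              gcongr
          _ = _ := by
              rw [ENNReal.ofReal_mul (by positivity), ENNReal.ofReal_pow (by norm_num)]
              norm_num
      · simp only [hg]
        rw [indicator_of_notMem hy]
        simp
    calc 2 * (ENNReal.ofReal (2 ^ 16 * om r (x - y₀)) * (m * ∫⁻ y, ‖g y‖ₑ ^ 2)) =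
        2 * m * (ENNReal.ofReal (2 ^ 16 * om r (x - y₀)) * ∫⁻ y, ‖g y‖ₑ ^ 2) := by ring
      _ ≤ 2 * m * (6 ^ 16 * ∫⁻ y in {y' : ℝ × ℝ | ‖y' + c - x‖ < 2 * r}, F2 y) := by gcongr
      _ = _ := by ring
  -- integrate over the centre
  have a1 := fun i => avg (hF1m i) hr (0 : ℝ × ℝ)
  have a2 := avg hF2m (by positivity : (0 : ℝ) < 2 * r) c
  have a3 := fun i => avg (hF3m i) hr (0 : ℝ × ℝ)
  have hq : ENNReal.ofReal (4 * (2 * r) ^ 2) = 4 * ENNReal.ofReal (4 * r ^ 2) := by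
    rw [show (4 : ℝ) * (2 * r) ^ 2 = 4 * (4 * r ^ 2) by ring, ENNReal.ofReal_mul (by norm_num)]
    norm_num
  have hF3i : ∀ i, ∫⁻ y, F3 i y ≤ (tailI r c (χ i)) ^ 2 * En r (y₀ - c) (Fi b) := fun i =>
    far_bd hYG (hKc i) hGc hr c y₀
  have hmain : ENNReal.ofReal (4 * r ^ 2) * ∑ i, En r y₀ (Fi (fun ζ => χ i ζ * b ζ)) ≤
      ENNReal.ofReal (4 * r ^ 2) * ((8 * 6 ^ 16 * m + 2 * A) * En r (y₀ - c) (Fi b)) := by
    calc ENNReal.ofReal (4 * r ^ 2) * ∑ i, En r y₀ (Fi (fun ζ => χ i ζ * b ζ))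
        = ∑ i, ∫⁻ x, ∫⁻ y in {y : ℝ × ℝ | ‖y + 0 - x‖ < r}, F1 i y := by
          rw [Finset.mul_sum]
          exact Finset.sum_congr rfl fun i _ => (a1 i).2.symm
      _ = ∫⁻ x, ∑ i, ∫⁻ y in {y : ℝ × ℝ | ‖y + 0 - x‖ < r}, F1 i y :=
          (lintegral_finsetSum _ (fun i _ => (a1 i).1)).symm
      _ ≤ ∫⁻ x, (2 * 6 ^ 16 * m * (∫⁻ y in {y' : ℝ × ℝ | ‖y' + c - x‖ < 2 * r}, F2 y) +
          2 * ∑ i, ∫⁻ y in {y : ℝ × ℝ | ‖y + 0 - x‖ < r}, F3 i y) := lintegral_mono key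
      _ = 2 * 6 ^ 16 * m * (ENNReal.ofReal (4 * (2 * r) ^ 2) * ∫⁻ y, F2 y) +
          2 * ∑ i, (ENNReal.ofReal (4 * r ^ 2) * ∫⁻ y, F3 i y) := by
          rw [lintegral_add_left (a2.1.const_mul _), lintegral_const_mul _ a2.1, a2.2,
            lintegral_const_mul _ (Finset.measurable_sum _ (fun i _ => (a3 i).1)),
            lintegral_finsetSum _ (fun i _ => (a3 i).1)]
          congr 2
          exact Finset.sum_congr rfl fun i _ => (a3 i).2
      _ ≤ 2 * 6 ^ 16 * m * (ENNReal.ofReal (4 * (2 * r) ^ 2) * ∫⁻ y, F2 y) +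
          2 * ∑ i, (ENNReal.ofReal (4 * r ^ 2) *
            ((tailI r c (χ i)) ^ 2 * En r (y₀ - c) (Fi b))) := by
          gcongr with i _; exact hF3i i
      _ = ENNReal.ofReal (4 * r ^ 2) * ((8 * 6 ^ 16 * m + 2 * ∑ i, (tailI r c (χ i)) ^ 2) *
            En r (y₀ - c) (Fi b)) := by
          have h8 : ∫⁻ y, F2 y = En r (y₀ - c) (Fi b) := rfl
          rw [h8, hq, ← Finset.mul_sum, ← Finset.sum_mul]
          ring
      _ ≤ _ := by gcongr
  have hne : ENNReal.ofReal (4 * r ^ 2) ≠ 0 := by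
    rw [Ne, ENNReal.ofReal_eq_zero, not_le]; positivity
  have hfin := (ENNReal.mul_le_mul_iff_right hne ENNReal.ofReal_ne_top).1 hmain
  refine hfin.trans ?_
  gcongr
  push_cast
  calc 8 * 6 ^ 16 * m + 2 * A ≤ (8 * 6 ^ 16 + 2) * m + (8 * 6 ^ 16 + 2) * A := by
        gcongr
        · exact le_self_add
        · exact le_add_self
    _ = _ := by ring

end Pool.Agent.H33.LS.LE
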