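import Pool.Agent.H83.LS.Targets1
import Pool.Agent.H83.LS.Basic

/-!
# MP_ee74d2_an, module ORTH: local orthogonality at scale `r`
-/

set_option autoImplicit false

namespace Pool.Agent.H33.LS.ORTH

open MeasureTheory Set Pool.Agent.H83.LS
open scoped ENNReal NNReal Interval

/-! ### the weight function on the line -/

/-- the basic function on the line -/
noncomputable def sS (x : ℝ) : ℝ := Real.sinc (Real.pi * x)

theorem int_e (x : ℝ) : ∫ u in (-(1 / 2 : ℝ))..(1 / 2), e (u * x) = ((sS x : ℝ) : ℂ) := by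
  by_cases hx : x = 0
  · subst hx
    simp [e_zero, sS]
    norm_num
  · have hc : ((2 * Real.pi * x : ℝ) : ℂ) * Complex.I ≠ 0 := by
      have : (2 * Real.pi * x : ℝ) ≠ 0 := by positivity
      exact mul_ne_zero (by exact_mod_cast this) Complex.I_ne_zero
    have h1 : ∀ u : ℝ, e (u * x) = Complex.exp (((2 * Real.pi * x : ℝ) : ℂ) * Complex.I * (u : ℂ)) := by
      intro u
      unfold e
      congr 1
      push_cast
      ring
    simp only [h1]
    rw [integral_exp_mul_complex hc]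
    have hpx : Real.pi * x ≠ 0 := by positivity
    rw [sS, Real.sinc_of_ne_zero hpx]
    push_cast
    rw [Complex.sin]
    have e1 : 2 * (Real.pi : ℂ) * x * Complex.I * (1 / 2) = (Real.pi : ℂ) * x * Complex.I := by ring
    have e2 : 2 * (Real.pi : ℂ) * x * Complex.I * -(1 / 2) = -((Real.pi : ℂ) * x) * Complex.I := by ring
    rw [e1, e2]
    have hpi : (Real.pi : ℂ) ≠ 0 := by exact_mod_cast Real.pi_ne_zero
    have hxc : (x : ℂ) ≠ 0 := by exact_mod_cast hx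
    field_simp
    rw [Complex.I_sq]
    ring

theorem sS_le_one (x : ℝ) : |sS x| ≤ 1 := Real.abs_sinc_le_one _

theorem sS_mul (x : ℝ) : sS x * (Real.pi * x) = Real.sin (Real.pi * x) := by
  unfold sS
  by_cases hx : Real.pi * x = 0
  · rw [hx]; simp
  · rw [Real.sinc_of_ne_zero hx, div_mul_cancel₀ _ hx]

theorem sS_bd (x : ℝ) : (1 + |x|) * |sS x| ≤ 2 := by
  have h1 := sS_le_one x
  have h2 : |sS x| * (Real.pi * |x|) ≤ 1 := by
    have := congrArg abs (sS_mul x)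
    rw [abs_mul, abs_mul, abs_of_pos Real.pi_pos] at this
    rw [this]
    exact Real.abs_sin_le_one _
  have h3 : |sS x| * |x| ≤ 1 := by
    have h4 : (1 : ℝ) ≤ Real.pi := by linarith [Real.pi_gt_three]
    have h5 : 0 ≤ |sS x| * |x| := by positivity
    nlinarith
  nlinarith

/-- the positive weight on the line -/
noncomputable def PP (x : ℝ) : ℝ := sS x ^ 4 + sS (x + 1 / 2) ^ 4

theorem PP_le (x : ℝ) : PP x * (1 + |x|) ^ 4 ≤ 97 := by
  have h0 : 0 ≤ |x| := abs_nonneg x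
  have h1 : sS x ^ 4 * (1 + |x|) ^ 4 ≤ 16 := by
    have := pow_le_pow_left₀ (by positivity) (sS_bd x) 4
    rw [mul_pow, ← abs_pow, abs_of_nonneg (by positivity : 0 ≤ sS x ^ 4)] at this
    linarith
  have h2 : sS (x + 1 / 2) ^ 4 * (1 + |x|) ^ 4 ≤ 81 := by
    have h3 : (1 + |x|) ≤ 3 / 2 * (1 + |x + 1 / 2|) := by
      have h4 : |x| ≤ |x + 1 / 2| + 1 / 2 := by
        have := abs_sub_abs_le_abs_sub x (-(1 / 2))
        rw [abs_neg, sub_neg_eq_add, abs_of_pos (by norm_num : (0 : ℝ) < 1 / 2)] at this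
        linarith
      have := abs_nonneg (x + 1 / 2)
      linarith
    have h5 : (1 + |x|) * |sS (x + 1 / 2)| ≤ 3 := by
      have := sS_bd (x + 1 / 2)
      have h6 : (1 + |x|) * |sS (x + 1 / 2)| ≤ 3 / 2 * (1 + |x + 1 / 2|) * |sS (x + 1 / 2)| :=
        mul_le_mul_of_nonneg_right h3 (abs_nonneg _)
      linarith
    have := pow_le_pow_left₀ (by positivity) h5 4
    rw [mul_pow, ← abs_pow, abs_of_nonneg (by positivity : 0 ≤ sS (x + 1 / 2) ^ 4)] at this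
    linarith
  unfold PP
  nlinarith

theorem PP_ge (x : ℝ) : 1 ≤ 512 * PP x * (1 + |x|) ^ 4 := by
  have h0 : 0 ≤ |x| := abs_nonneg x
  have hpi : Real.pi ≤ 4 := Real.pi_le_four
  have hpi0 := Real.pi_pos
  have hs := sS_mul x
  have hc : sS (x + 1 / 2) * (Real.pi * (x + 1 / 2)) = Real.cos (Real.pi * x) := by
    rw [sS_mul, ← Real.sin_add_pi_div_two]
    congr 1
    ring
  have h1 : |Real.pi * x| ≤ 4 * (1 + |x|) := by
    rw [abs_mul, abs_of_pos hpi0]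
    nlinarith
  have h2 : |Real.pi * (x + 1 / 2)| ≤ 4 * (1 + |x|) := by
    rw [abs_mul, abs_of_pos hpi0]
    have : |x + 1 / 2| ≤ |x| + 1 / 2 := (abs_add_le _ _).trans (by norm_num)
    nlinarith [abs_nonneg (x + 1 / 2)]
  have h3 : Real.sin (Real.pi * x) ^ 4 ≤ 256 * (sS x ^ 4 * (1 + |x|) ^ 4) := by
    rw [← hs, mul_pow]
    have h4 : (Real.pi * x) ^ 4 ≤ (4 * (1 + |x|)) ^ 4 := by
      rw [← abs_of_nonneg (by positivity : 0 ≤ (Real.pi * x) ^ 4), abs_pow]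
      exact pow_le_pow_left₀ (abs_nonneg _) h1 4
    have h5 : 0 ≤ sS x ^ 4 := by positivity
    nlinarith
  have h3' : Real.cos (Real.pi * x) ^ 4 ≤ 256 * (sS (x + 1 / 2) ^ 4 * (1 + |x|) ^ 4) := by
    rw [← hc, mul_pow]
    have h4 : (Real.pi * (x + 1 / 2)) ^ 4 ≤ (4 * (1 + |x|)) ^ 4 := by
      rw [← abs_of_nonneg (by positivity : 0 ≤ (Real.pi * (x + 1 / 2)) ^ 4), abs_pow]
      exact pow_le_pow_left₀ (abs_nonneg _) h2 4
    have h5 : 0 ≤ sS (x + 1 / 2) ^ 4 := by positivity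
    nlinarith
  have h6 := Real.sin_sq_add_cos_sq (Real.pi * x)
  have h7 : 1 / 2 ≤ Real.sin (Real.pi * x) ^ 4 + Real.cos (Real.pi * x) ^ 4 := by
    nlinarith [sq_nonneg (Real.sin (Real.pi * x) ^ 2 - Real.cos (Real.pi * x) ^ 2)]
  unfold PP
  nlinarith

theorem PP_nonneg (x : ℝ) : 0 ≤ PP x := by unfold PP; positivity

/-! ### the averaging operator -/

/-- continuous with compact support -/
def CC (b : ℝ × ℝ → ℂ) : Prop := Continuous b ∧ HasCompactSupport b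

/-- averages over a segment with a phase -/
noncomputable def Mo (v : ℝ × ℝ) (θ : ℝ) (b : ℝ × ℝ → ℂ) (z : ℝ × ℝ) : ℂ :=
  ∫ u in (-(1 / 2 : ℝ))..(1 / 2), e (u * θ) * b (z - u • v)

theorem Mo_supp {v : ℝ × ℝ} {θ : ℝ} {b : ℝ × ℝ → ℂ} {z : ℝ × ℝ} (h : Mo v θ b z ≠ 0) :
    ∃ u : ℝ, |u| ≤ 1 / 2 ∧ b (z - u • v) ≠ 0 := by
  by_contra hcon
  push Not at hcon
  apply h
  unfold Mo
  rw [intervalIntegral.integral_congr (g := fun _ => (0 : ℂ))]
  · simp
  · intro u hu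
    rw [uIcc_of_le (by norm_num)] at hu
    simp only
    rw [hcon u (abs_le.2 ⟨by linarith [hu.1], hu.2⟩), mul_zero]

theorem Mo_cc {v : ℝ × ℝ} {θ : ℝ} {b : ℝ × ℝ → ℂ} (hb : CC b) : CC (Mo v θ b) := by
  constructor
  · unfold Mo
    apply intervalIntegral.continuous_parametric_intervalIntegral_of_continuous'
    have h1 : Continuous (fun p : (ℝ × ℝ) × ℝ => e (p.2 * θ)) :=
      continuous_e.comp (by fun_prop)
    have h2 : Continuous (fun p : (ℝ × ℝ) × ℝ => b (p.1 - p.2 • v)) :=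
      hb.1.comp (by fun_prop)
    exact h1.mul h2
  · have hK : IsCompact ((fun p : (ℝ × ℝ) × ℝ => p.1 + p.2 • v) '' (tsupport b ×ˢ Icc (-(1 / 2)) (1 / 2))) :=
      (hb.2.isCompact.prod isCompact_Icc).image (by fun_prop)
    refine HasCompactSupport.of_support_subset_isCompact hK ?_
    intro z hz
    obtain ⟨u, hu, hbz⟩ := Mo_supp hz
    refine ⟨(z - u • v, u), ⟨subset_tsupport _ hbz, abs_le.1 hu⟩, ?_⟩
    simp

theorem CC.int {b : ℝ × ℝ → ℂ} (hb : CC b) : Integrable b :=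
  hb.1.integrable_of_hasCompactSupport hb.2

theorem Mo_Fi {v : ℝ × ℝ} {θ : ℝ} {b : ℝ × ℝ → ℂ} (hb : CC b) (y : ℝ × ℝ) :
    Fi (Mo v θ b) y = ((sS (θ + (y.1 * v.1 + y.2 * v.2)) : ℝ) : ℂ) * Fi b y := by
  unfold Fi Mo
  have hfi : Integrable (Function.uncurry fun (ζ : ℝ × ℝ) (u : ℝ) =>
      e (y.1 * ζ.1 + y.2 * ζ.2) * (e (u * θ) * b (ζ - u • v)))
      ((volume : Measure (ℝ × ℝ)).prod (volume.restrict (uIoc (-(1 / 2 : ℝ)) (1 / 2)))) := by
    rw [uIoc_of_le (by norm_num)]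
    have hc : Continuous (Function.uncurry fun (ζ : ℝ × ℝ) (u : ℝ) =>
      e (y.1 * ζ.1 + y.2 * ζ.2) * (e (u * θ) * b (ζ - u • v))) := by
      have h0 : Continuous (fun p : (ℝ × ℝ) × ℝ => e (y.1 * p.1.1 + y.2 * p.1.2)) :=
        continuous_e.comp (by fun_prop)
      have h1 : Continuous (fun p : (ℝ × ℝ) × ℝ => e (p.2 * θ)) :=
        continuous_e.comp (by fun_prop)
      have h2 : Continuous (fun p : (ℝ × ℝ) × ℝ => b (p.1 - p.2 • v)) :=
        hb.1.comp (by fun_prop)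
      exact h0.mul (h1.mul h2)
    have hK : IsCompact ((fun p : (ℝ × ℝ) × ℝ => (p.1 + p.2 • v, p.2)) ''
        (tsupport b ×ˢ Icc (-(1 / 2)) (1 / 2))) :=
      (hb.2.isCompact.prod isCompact_Icc).image (by fun_prop)
    have hI : IntegrableOn (Function.uncurry fun (ζ : ℝ × ℝ) (u : ℝ) =>
      e (y.1 * ζ.1 + y.2 * ζ.2) * (e (u * θ) * b (ζ - u • v)))
      ((fun p : (ℝ × ℝ) × ℝ => (p.1 + p.2 • v, p.2)) '' (tsupport b ×ˢ Icc (-(1 / 2)) (1 / 2)))
      ((volume : Measure (ℝ × ℝ)).prod (volume : Measure ℝ)) :=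
      hc.continuousOn.integrableOn_compact hK
    have hms : MeasurableSet (univ ×ˢ Ioc (-(1 / 2 : ℝ)) (1 / 2) : Set ((ℝ × ℝ) × ℝ)) :=
      MeasurableSet.univ.prod measurableSet_Ioc
    have hmu : (volume : Measure (ℝ × ℝ)).prod (volume.restrict (Ioc (-(1 / 2 : ℝ)) (1 / 2))) =
        ((volume : Measure (ℝ × ℝ)).prod (volume : Measure ℝ)).restrict
          (univ ×ˢ Ioc (-(1 / 2 : ℝ)) (1 / 2)) := by
      rw [← Measure.prod_restrict, Measure.restrict_univ]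
    rw [hmu]
    refine IntegrableOn.of_forall_sdiff_eq_zero hI hms ?_
    rintro ⟨ζ, u⟩ ⟨⟨-, hu⟩, hn⟩
    have : b (ζ - u • v) = 0 := by
      by_contra hne
      apply hn
      refine ⟨(ζ - u • v, u), ⟨subset_tsupport _ hne, hu.1.le, hu.2⟩, ?_⟩
      simp
    simp only [Function.uncurry_apply_pair]
    rw [this, mul_zero, mul_zero]
  have h1 : ∀ ζ : ℝ × ℝ, e (y.1 * ζ.1 + y.2 * ζ.2) *
      ∫ u in (-(1 / 2 : ℝ))..(1 / 2), e (u * θ) * b (ζ - u • v) =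
      ∫ u in (-(1 / 2 : ℝ))..(1 / 2), e (y.1 * ζ.1 + y.2 * ζ.2) * (e (u * θ) * b (ζ - u • v)) := by
    intro ζ
    rw [intervalIntegral.integral_const_mul]
  simp only [h1]
  have h2 : ∀ u : ℝ, ∫ ζ : ℝ × ℝ, e (y.1 * ζ.1 + y.2 * ζ.2) * (e (u * θ) * b (ζ - u • v)) =
      e (u * (θ + (y.1 * v.1 + y.2 * v.2))) * ∫ ζ : ℝ × ℝ, e (y.1 * ζ.1 + y.2 * ζ.2) * b ζ := by
    intro u
    rw [← integral_const_mul, ← integral_sub_right_eq_self (fun ζ : ℝ × ℝ =>
      e (u * (θ + (y.1 * v.1 + y.2 * v.2))) * (e (y.1 * ζ.1 + y.2 * ζ.2) * b ζ)) (u • v)]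
    congr 1
    funext ζ
    have h3 : e (y.1 * ζ.1 + y.2 * ζ.2) * e (u * θ) = e (u * (θ + (y.1 * v.1 + y.2 * v.2))) *
        e (y.1 * (ζ - u • v).1 + y.2 * (ζ - u • v).2) := by
      rw [← e_add, ← e_add]
      congr 1
      simp only [Prod.fst_sub, Prod.snd_sub, Prod.smul_fst, Prod.smul_snd, smul_eq_mul]
      ring
    rw [← mul_assoc, h3]
    ring
  rw [uIoc_of_le (by norm_num)] at hfi
  simp only [intervalIntegral.integral_of_le (by norm_num : (-(1 / 2 : ℝ)) ≤ 1 / 2)]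
  rw [integral_integral_swap hfi]
  simp only [h2]
  rw [← intervalIntegral.integral_of_le (by norm_num : (-(1 / 2 : ℝ)) ≤ 1 / 2),
    intervalIntegral.integral_mul_const, int_e]

/-- iterated averages -/
theorem Mo_iter {v : ℝ × ℝ} {θ : ℝ} {b : ℝ × ℝ → ℂ} (hb : CC b) (k : ℕ) :
    CC ((Mo v θ)^[k] b) ∧
    (∀ y, Fi ((Mo v θ)^[k] b) y =
      (((sS (θ + (y.1 * v.1 + y.2 * v.2))) ^ k : ℝ) : ℂ) * Fi b y) ∧
    ∀ z, (Mo v θ)^[k] b z ≠ 0 → ∃ u : ℝ, |u| ≤ k / 2 ∧ b (z - u • v) ≠ 0 := by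
  induction k with
  | zero =>
    refine ⟨hb, fun y => by simp, fun z hz => ⟨0, by simp, by simpa using hz⟩⟩
  | succ k ih =>
    obtain ⟨h1, h2, h3⟩ := ih
    rw [Function.iterate_succ', Function.comp_apply]
    refine ⟨Mo_cc h1, fun y => ?_, fun z hz => ?_⟩
    · rw [Mo_Fi h1, h2]
      push_cast
      ring
    · obtain ⟨u, hu, hu2⟩ := Mo_supp hz
      obtain ⟨u', hu', hu2'⟩ := h3 _ hu2
      refine ⟨u + u', ?_, ?_⟩
      · refine (abs_add_le _ _).trans ?_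
        push_cast
        linarith
      · rwa [add_smul, ← sub_sub]

/-- the localization of `b` -/
noncomputable def st (r : ℝ) (y₀ : ℝ × ℝ) (b : ℝ × ℝ → ℂ) (z : ℝ × ℝ) : ℂ :=
  ∑ j : Fin 2 × Fin 2, (Mo (1 / r, 0) (-(y₀.1 / r) + (j.1 : ℕ) * (1 / 2)))^[4]
    ((Mo (0, 1 / r) (-(y₀.2 / r) + (j.2 : ℕ) * (1 / 2)))^[4] b) z

/-- the weight -/
noncomputable def ps (r : ℝ) (y : ℝ × ℝ) : ℝ := PP (y.1 / r) * PP (y.2 / r)

theorem st_facts {r : ℝ} (hr : 0 < r) (y₀ : ℝ × ℝ) {b : ℝ × ℝ → ℂ} (hb : CC b) :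
    CC (st r y₀ b) ∧ (∀ y, Fi (st r y₀ b) y = ((ps r (y - y₀) : ℝ) : ℂ) * Fi b y) ∧
    ∀ z, st r y₀ b z ≠ 0 → ∃ z' : ℝ × ℝ, b z' ≠ 0 ∧ |z'.1 - z.1| ≤ 2 / r ∧ |z'.2 - z.2| ≤ 2 / r := by
  set g : Fin 2 × Fin 2 → ℝ × ℝ → ℂ := fun j => (Mo (1 / r, 0) (-(y₀.1 / r) + (j.1 : ℕ) * (1 / 2)))^[4]
    ((Mo (0, 1 / r) (-(y₀.2 / r) + (j.2 : ℕ) * (1 / 2)))^[4] b) with hg
  have h1 : ∀ j : Fin 2 × Fin 2, CC ((Mo (0, 1 / r) (-(y₀.2 / r) + (j.2 : ℕ) * (1 / 2)))^[4] b) :=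
    fun j => (Mo_iter hb 4).1
  have h2 : ∀ j, CC (g j) := fun j => (Mo_iter (h1 j) 4).1
  have h3 : ∀ j y, Fi (g j) y = (((sS (-(y₀.1 / r) + (j.1 : ℕ) * (1 / 2) +
      (y.1 * (1 / r) + y.2 * 0))) ^ 4 : ℝ) : ℂ) * ((((sS (-(y₀.2 / r) + (j.2 : ℕ) * (1 / 2) +
      (y.1 * 0 + y.2 * (1 / r)))) ^ 4 : ℝ) : ℂ) * Fi b y) := by
    intro j y
    rw [(Mo_iter (h1 j) 4).2.1 y, (Mo_iter hb 4).2.1 y]
  have hst : st r y₀ b = fun z => ∑ j, g j z := rfl
  refine ⟨?_, ?_, ?_⟩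
  · rw [hst]
    constructor
    · exact continuous_finsetSum _ fun j _ => (h2 j).1
    · have : (fun z => ∑ j, g j z) = ∑ j, g j := by funext z; simp
      rw [this]
      classical
      have h4 : ∀ s : Finset (Fin 2 × Fin 2), HasCompactSupport (∑ j ∈ s, g j) := by
        intro s
        induction s using Finset.induction_on with
        | empty => simpa using HasCompactSupport.zero
        | insert a s ha ih => rw [Finset.sum_insert ha]; exact (h2 a).2.add ih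
      exact h4 _
  · intro y
    rw [hst, Fi_sum _ _ (fun j _ => (h2 j).int)]
    simp only [h3]
    rw [Fintype.sum_prod_type]
    simp only [Fin.sum_univ_two]
    unfold ps PP
    have e1 : -(y₀.1 / r) + ((0 : Fin 2) : ℕ) * (1 / 2) + (y.1 * (1 / r) + y.2 * 0) =
        (y - y₀).1 / r := by simp; ring
    have e2 : -(y₀.1 / r) + ((1 : Fin 2) : ℕ) * (1 / 2) + (y.1 * (1 / r) + y.2 * 0) =
        (y - y₀).1 / r + 1 / 2 := by simp; ring
    have e3 : -(y₀.2 / r) + ((0 : Fin 2) : ℕ) * (1 / 2) + (y.1 * 0 + y.2 * (1 / r)) =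
        (y - y₀).2 / r := by simp; ring
    have e4 : -(y₀.2 / r) + ((1 : Fin 2) : ℕ) * (1 / 2) + (y.1 * 0 + y.2 * (1 / r)) =
        (y - y₀).2 / r + 1 / 2 := by simp; ring
    rw [e1, e2, e3, e4]
    push_cast
    ring
  · intro z hz
    rw [hst] at hz
    obtain ⟨j, -, hj⟩ := Finset.exists_ne_zero_of_sum_ne_zero hz
    obtain ⟨u, hu, h5⟩ := (Mo_iter (h1 j) 4).2.2 z hj
    obtain ⟨u', hu', h6⟩ := (Mo_iter hb 4).2.2 _ h5
    refine ⟨_, h6, ?_, ?_⟩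
    · simp only [Prod.fst_sub, Prod.smul_fst, smul_eq_mul]
      have e1 : z.1 - u * (1 / r) - u' * 0 - z.1 = -u / r := by ring
      rw [e1, abs_div, abs_neg, abs_of_pos hr]
      apply div_le_div_of_nonneg_right _ hr.le
      refine hu.trans ?_
      norm_num
    · simp only [Prod.snd_sub, Prod.smul_snd, smul_eq_mul]
      have e1 : z.2 - u * 0 - u' * (1 / r) - z.2 = -u' / r := by ring
      rw [e1, abs_div, abs_neg, abs_of_pos hr]
      apply div_le_div_of_nonneg_right _ hr.le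
      refine hu'.trans ?_
      norm_num

/-- comparison of the weights -/
theorem ps_om {r : ℝ} (hr : 0 < r) (y : ℝ × ℝ) :
    om r y ≤ 512 ^ 4 * ps r y ^ 2 ∧ ps r y ^ 2 ≤ 97 ^ 4 * om r y := by
  have a1 := PP_le (y.1 / r)
  have a2 := PP_le (y.2 / r)
  have b1 := PP_ge (y.1 / r)
  have b2 := PP_ge (y.2 / r)
  rw [abs_div, abs_of_pos hr] at a1 a2 b1 b2
  have p1 := PP_nonneg (y.1 / r)
  have p2 := PP_nonneg (y.2 / r)
  unfold ps om
  set A := 1 + |y.1| / r with hA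
  set B := 1 + |y.2| / r with hB
  have hA0 : 0 < A := by positivity
  have hB0 : 0 < B := by positivity
  constructor
  · rw [inv_le_iff_one_le_mul₀ (by positivity)]
    have h1 : 1 ≤ (512 * PP (y.1 / r) * A ^ 4) * (512 * PP (y.2 / r) * B ^ 4) :=
      one_le_mul_of_one_le_of_one_le b1 b2
    have h2 := one_le_pow₀ h1 (n := 2)
    calc (1 : ℝ) ≤ _ := h2
      _ = _ := by ring
  · rw [← div_eq_mul_inv, le_div_iff₀ (by positivity)]
    have h1 : (PP (y.1 / r) * A ^ 4) * (PP (y.2 / r) * B ^ 4) ≤ 97 * 97 :=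
      mul_le_mul a1 a2 (by positivity) (by norm_num)
    have h2 := pow_le_pow_left₀ (by positivity) h1 2
    calc _ = ((PP (y.1 / r) * A ^ 4) * (PP (y.2 / r) * B ^ 4)) ^ 2 := by ring
      _ ≤ _ := h2
      _ = _ := by norm_num

theorem TC.cc {b : ℝ × ℝ → ℂ} (hb : TC b) : CC b := ⟨hb.1.continuous, hb.2⟩

theorem CC.bc {b : ℝ × ℝ → ℂ} (hb : CC b) : BC b := by
  refine ⟨hb.1.measurable, ?_, ?_⟩
  · obtain ⟨C, hC⟩ := hb.1.bounded_above_of_compact_support hb.2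
    exact ⟨C, hC⟩
  · obtain ⟨R, hR⟩ := hb.2.isCompact.isBounded.subset_closedBall (0 : ℝ × ℝ)
    refine ⟨R, fun y hy => ?_⟩
    by_contra hne
    have := hR (subset_tsupport _ hne)
    rw [mem_closedBall_zero_iff] at this
    linarith

theorem planch (hPLB : T_PLB) {b : ℝ × ℝ → ℂ} (hb : CC b) :
    ∫⁻ y, ‖Fi b y‖ₑ ^ 2 = ∫⁻ z, ‖b z‖ₑ ^ 2 := by
  rw [← (hPLB b hb.bc).2.1, ← lintegral_neg_eq_self (fun ζ => ‖Ff b ζ‖ₑ ^ 2)]
  congr 1
  funext y
  congr 2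
  unfold Fi Ff
  congr 1
  funext ζ
  congr 2
  simp
  ring

/-- pointwise bound for sums with few nonzero terms -/
theorem few {ι : Type} [Fintype ι] (f : ι → ℂ) {m : ℕ} (h : {i | f i ≠ 0}.ncard ≤ m) :
    ‖∑ i, f i‖ₑ ^ 2 ≤ m * ∑ i, ‖f i‖ₑ ^ 2 := by
  classical
  set s : Finset ι := Finset.univ.filter (fun i => f i ≠ 0) with hs
  have h1 : ∑ i, f i = ∑ i ∈ s, f i := by
    rw [hs, Finset.sum_filter_ne_zero]
  have h2 : (s.card : ℝ) ≤ m := by
    have : s.card = {i | f i ≠ 0}.ncard := by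
      rw [← Set.ncard_coe_finset]
      congr 1
      ext i
      simp [hs]
    rw [this]
    exact_mod_cast h
  have h3 : ‖∑ i, f i‖ ^ 2 ≤ m * ∑ i, ‖f i‖ ^ 2 := by
    rw [h1]
    calc ‖∑ i ∈ s, f i‖ ^ 2 ≤ (∑ i ∈ s, ‖f i‖) ^ 2 :=
          pow_le_pow_left₀ (norm_nonneg _) (norm_sum_le _ _) 2
      _ ≤ s.card * ∑ i ∈ s, ‖f i‖ ^ 2 := sq_sum_le_card_mul_sum_sq
      _ ≤ m * ∑ i, ‖f i‖ ^ 2 := by
          refine mul_le_mul h2 ?_ (by positivity) (by positivity)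
          exact Finset.sum_le_sum_of_subset_of_nonneg (Finset.subset_univ _)
            (fun _ _ _ => by positivity)
  have h4 := ENNReal.ofReal_le_ofReal h3
  rw [ENNReal.ofReal_mul (by positivity), ENNReal.ofReal_natCast,
    ENNReal.ofReal_sum_of_nonneg (fun _ _ => by positivity), ENNReal.ofReal_pow (norm_nonneg _),
    ofReal_norm] at h4
  simpa [ENNReal.ofReal_pow, ofReal_norm] using h4

theorem orth (hPLB : T_PLB) : T_ORTH := by
  refine ⟨512 ^ 4 * 97 ^ 4, ?_⟩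
  intro ι _ b r y₀ m hr hb hm
  have hcc : ∀ i, CC (b i) := fun i => TC.cc (hb i)
  have hf := fun i => st_facts hr y₀ (hcc i)
  set g : ι → ℝ × ℝ → ℂ := fun i => st r y₀ (b i) with hg
  have hgs : CC (fun z => ∑ i, g i z) := by
    constructor
    · exact continuous_finsetSum _ fun j _ => (hf j).1.1
    · have : (fun z => ∑ j, g j z) = ∑ j, g j := by funext z; simp
      rw [this]
      classical
      have h4 : ∀ s : Finset ι, HasCompactSupport (∑ j ∈ s, g j) := by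
        intro s
        induction s using Finset.induction_on with
        | empty => simpa using HasCompactSupport.zero
        | insert a s ha ih => rw [Finset.sum_insert ha]; exact (hf a).1.2.add ih
      exact h4 _
  -- the weighted transform
  have hsum : ∀ y, Fi (fun z => ∑ i, g i z) y =
      ((ps r (y - y₀) : ℝ) : ℂ) * Fi (fun ζ => ∑ i, b i ζ) y := by
    intro y
    rw [Fi_sum _ _ (fun i _ => (hf i).1.int), Fi_sum _ _ (fun i _ => (hcc i).int), Finset.mul_sum]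
    exact Finset.sum_congr rfl fun i _ => (hf i).2.1 y
  have hsq : ∀ (x : ℝ) (w : ℂ), ‖((x : ℝ) : ℂ) * w‖ₑ ^ 2 = ENNReal.ofReal (x ^ 2) * ‖w‖ₑ ^ 2 := by
    intro x w
    rw [enorm_mul, mul_pow]
    congr 1
    rw [← ofReal_norm, ← ENNReal.ofReal_pow (norm_nonneg _), Complex.norm_real, Real.norm_eq_abs,
      sq_abs]
  have h1 : En r y₀ (Fi (fun ζ => ∑ i, b i ζ)) ≤
      512 ^ 4 * ∫⁻ y, ‖Fi (fun z => ∑ i, g i z) y‖ₑ ^ 2 := by
    unfold En
    rw [← lintegral_const_mul' _ _ (by finiteness)]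
    refine lintegral_mono fun y => ?_
    simp only
    rw [hsum, hsq, ← mul_assoc]
    gcongr
    have := ENNReal.ofReal_le_ofReal (ps_om hr (y - y₀)).1
    rw [ENNReal.ofReal_mul (by positivity)] at this
    refine this.trans (le_of_eq ?_)
    congr 1
    rw [ENNReal.ofReal_pow (by norm_num)]
    norm_num
  have h2 : ∀ i, ∫⁻ y, ‖Fi (g i) y‖ₑ ^ 2 ≤ 97 ^ 4 * En r y₀ (Fi (b i)) := by
    intro i
    unfold En
    rw [← lintegral_const_mul' _ _ (by finiteness)]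
    refine lintegral_mono fun y => ?_
    simp only
    rw [(hf i).2.1, hsq, ← mul_assoc]
    gcongr
    have := ENNReal.ofReal_le_ofReal (ps_om hr (y - y₀)).2
    rw [ENNReal.ofReal_mul (by positivity)] at this
    refine this.trans (le_of_eq ?_)
    congr 1
    rw [ENNReal.ofReal_pow (by norm_num)]
    norm_num
  have h3 : ∫⁻ z, ‖∑ i, g i z‖ₑ ^ 2 ≤ m * ∑ i, ∫⁻ z, ‖g i z‖ₑ ^ 2 := by
    rw [← lintegral_finsetSum' _ (fun i _ =>
      ((hf i).1.1.enorm.measurable.pow_const 2).aemeasurable),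
      ← lintegral_const_mul' _ _ (ENNReal.natCast_ne_top m)]
    refine lintegral_mono fun z => few _ ?_
    refine (Set.ncard_le_ncard ?_ (Set.toFinite _)).trans (hm z)
    intro i hi
    exact (hf i).2.2 z hi
  calc En r y₀ (Fi (fun ζ => ∑ i, b i ζ)) ≤ 512 ^ 4 * ∫⁻ y, ‖Fi (fun z => ∑ i, g i z) y‖ₑ ^ 2 := h1
    _ = 512 ^ 4 * ∫⁻ z, ‖∑ i, g i z‖ₑ ^ 2 := by rw [planch hPLB hgs]
    _ ≤ 512 ^ 4 * (m * ∑ i, ∫⁻ z, ‖g i z‖ₑ ^ 2) := by gcongr
    _ = 512 ^ 4 * (m * ∑ i, ∫⁻ y, ‖Fi (g i) y‖ₑ ^ 2) := by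
        congr 2
        refine Finset.sum_congr rfl fun i _ => (planch hPLB (hf i).1).symm
    _ ≤ 512 ^ 4 * (m * ∑ i, 97 ^ 4 * En r y₀ (Fi (b i))) := by gcongr with i _; exact h2 i
    _ = _ := by
        rw [← Finset.mul_sum]
        push_cast
        ring

end Pool.Agent.H33.LS.ORTH
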