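import Pool.Agent.H83.LS.Targets1
import Pool.Agent.H83.LS.Basic

/-!
# MP_ee74d2_an, module REVC: reverse square function for caps
-/

set_option autoImplicit false

namespace Pool.Agent.H33.LS.REVC

open MeasureTheory Set Pool.Agent.H83.LS
open scoped ENNReal NNReal

/-- integers in an interval of length `2` -/
theorem icc3 (x : ℝ) : (Finset.Icc ⌈x - 1⌉ ⌊x + 1⌋).card ≤ 3 := by
  rw [Int.card_Icc]
  have h1 : (⌊x + 1⌋ : ℝ) ≤ x + 1 := Int.floor_le _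
  have h2 : x - 1 ≤ (⌈x - 1⌉ : ℝ) := Int.le_ceil _
  have h3 : ((⌊x + 1⌋ : ℤ) : ℝ) - ((⌈x - 1⌉ : ℤ) : ℝ) ≤ 2 := by linarith
  have h4 : ⌊x + 1⌋ - ⌈x - 1⌉ ≤ 2 := by exact_mod_cast h3
  omega

/-- scaling of the kernel of a cap -/
theorem cap_scale {l : ℝ} (hl : 0 < l) (c : ℤ × ℤ) (z : ℝ × ℝ) :
    ‖Fi (cp l c) z‖ = (l ^ 2)⁻¹ * ‖Fi (cp 1 0) (l⁻¹ • z)‖ := by
  have h1 : Fi (cp l c) z = (((l ^ 2)⁻¹ : ℝ) : ℂ) * (e (z.1 * (c.1 / l) + z.2 * (c.2 / l)) *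
      Fi (cp 1 0) (l⁻¹ • z)) := by
    unfold Fi
    set F : ℝ × ℝ → ℂ := fun ξ => e ((z.1 * ξ.1 + z.2 * ξ.2) / l) *
      ((psi (ξ.1 - c.1) * psi (ξ.2 - c.2) : ℝ) : ℂ) with hF
    have h2 : ∀ ζ : ℝ × ℝ, e (z.1 * ζ.1 + z.2 * ζ.2) * cp l c ζ = F (l • ζ) := by
      intro ζ
      simp only [hF, cp, Prod.smul_fst, Prod.smul_snd, smul_eq_mul]
      congr 2
      field_simp
    simp only [h2]
    rw [Measure.integral_comp_smul, ← integral_add_right_eq_self F ((c.1 : ℝ), (c.2 : ℝ)),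
      ← integral_const_mul]
    have hfr : Module.finrank ℝ (ℝ × ℝ) = 2 := by simp
    rw [hfr, abs_of_pos (by positivity), ← Complex.coe_smul, smul_eq_mul]
    congr 2
    funext ξ
    simp only [hF, cp, Prod.fst_add, Prod.snd_add, add_sub_cancel_right, Prod.smul_fst,
      Prod.smul_snd, smul_eq_mul, one_mul, Prod.fst_zero, Prod.snd_zero, Int.cast_zero, sub_zero]
    rw [← mul_assoc, ← e_add]
    congr 2
    field_simp
    ring
  rw [h1, norm_mul, norm_mul, norm_e, one_mul, Complex.norm_real, Real.norm_eq_abs,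
    abs_of_pos (by positivity)]

/-- the tails of the kernels of caps -/
theorem cap_tail (hDEC : T_DEC) (hCUT : T_CUT) : ∃ C : ℝ, 0 ≤ C ∧ ∀ (l r : ℝ) (c : ℤ × ℤ),
    1 ≤ l → l ^ 2 ≤ r → tailI r 0 (cp l c) ≤ ENNReal.ofReal (C / l) := by
  have hTC : TC (cp 1 0) := (hCUT.2.2.1 1 0 one_pos).1
  obtain ⟨C, hC⟩ := (hDEC _ hTC).2 8
  have hC0 : 0 ≤ C := by
    refine le_trans ?_ (hC 0)
    positivity
  have hint : Integrable (fun w : ℝ × ℝ => (1 + ‖w‖) ^ (-(3 : ℝ))) :=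
    integrable_one_add_norm (by simp; norm_num)
  set J := ∫ w : ℝ × ℝ, (1 + ‖w‖) ^ (-(3 : ℝ)) with hJ
  have hJ0 : 0 ≤ J := integral_nonneg fun w => by positivity
  refine ⟨C * J, by positivity, ?_⟩
  intro l r c hl hr
  have hl0 : 0 < l := by linarith
  have hlr : l ≤ r := by nlinarith
  have hr0 : 0 < r := by linarith
  have hpt : ∀ z : ℝ × ℝ, r ≤ ‖z - 0‖ → ‖Fi (cp l c) z‖ₑ *
      ENNReal.ofReal (((1 + |z.1 - (0 : ℝ × ℝ).1| / r) * (1 + |z.2 - (0 : ℝ × ℝ).2| / r)) ^ 4) ≤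
      ENNReal.ofReal ((l ^ 2)⁻¹ * (C / l) * (1 + ‖l⁻¹ • z‖) ^ (-(3 : ℝ))) := by
    intro z hz
    rw [sub_zero] at hz
    rw [← ofReal_norm, ← ENNReal.ofReal_mul (norm_nonneg _), cap_scale hl0]
    apply ENNReal.ofReal_le_ofReal
    simp only [Prod.fst_zero, Prod.snd_zero, sub_zero]
    set w := l⁻¹ • z with hw
    have hw1 : |w.1| = |z.1| / l := by
      rw [hw, Prod.smul_fst, smul_eq_mul, abs_mul, abs_of_pos (by positivity)]; ring
    have hw2 : |w.2| = |z.2| / l := by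
      rw [hw, Prod.smul_snd, smul_eq_mul, abs_mul, abs_of_pos (by positivity)]; ring
    have hwl : l ≤ ‖w‖ := by
      rw [hw, norm_smul, Real.norm_eq_abs, abs_of_pos (by positivity : 0 < l⁻¹)]
      rw [le_inv_mul_iff₀ hl0]
      nlinarith
    have hCw := hC w
    set P := (1 + |w.1|) * (1 + |w.2|) with hP
    have hP1 : 1 + ‖w‖ ≤ P := by
      have : ‖w‖ = max |w.1| |w.2| := by rw [Prod.norm_def]; rfl
      rw [this]
      have h1 := abs_nonneg w.1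
      have h2 := abs_nonneg w.2
      rcases max_cases |w.1| |w.2| with ⟨h3, -⟩ | ⟨h3, -⟩ <;> rw [h3] <;> nlinarith
    have hPp : 0 < P := by positivity
    have hQ : ((1 + |z.1| / r) * (1 + |z.2| / r)) ^ 4 ≤ P ^ 4 := by
      apply pow_le_pow_left₀ (by positivity)
      rw [hP, hw1, hw2]
      gcongr
    have h5 : ‖Fi (cp 1 0) w‖ ≤ C / P ^ 8 := by
      rw [le_div_iff₀ (by positivity)]; exact hCw
    have h6 : (1 + ‖w‖) ^ (-(3 : ℝ)) = ((1 + ‖w‖) ^ 3)⁻¹ := by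
      rw [Real.rpow_neg (by positivity)]
      norm_cast
    rw [h6]
    calc (l ^ 2)⁻¹ * ‖Fi (cp 1 0) w‖ * ((1 + |z.1| / r) * (1 + |z.2| / r)) ^ 4
        ≤ (l ^ 2)⁻¹ * (C / P ^ 8) * P ^ 4 := by gcongr
      _ = (l ^ 2)⁻¹ * (C * (P⁻¹ * (P ^ 3)⁻¹)) := by field_simp
      _ ≤ (l ^ 2)⁻¹ * (C * (l⁻¹ * ((1 + ‖w‖) ^ 3)⁻¹)) := by
          gcongr
          linarith
      _ = _ := by ring
  have hms : MeasurableSet {z : ℝ × ℝ | r ≤ ‖z - 0‖} :=
    (isClosed_le continuous_const (by fun_prop)).measurableSet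
  have hint2 : Integrable (fun z : ℝ × ℝ => (l ^ 2)⁻¹ * (C / l) * (1 + ‖l⁻¹ • z‖) ^ (-(3 : ℝ))) :=
    (hint.comp_smul (by positivity : l⁻¹ ≠ 0)).const_mul _
  unfold tailI
  calc _ ≤ ∫⁻ z in {z : ℝ × ℝ | r ≤ ‖z - 0‖},
        ENNReal.ofReal ((l ^ 2)⁻¹ * (C / l) * (1 + ‖l⁻¹ • z‖) ^ (-(3 : ℝ))) :=
        setLIntegral_mono' hms hpt
    _ ≤ ∫⁻ z, ENNReal.ofReal ((l ^ 2)⁻¹ * (C / l) * (1 + ‖l⁻¹ • z‖) ^ (-(3 : ℝ))) :=
        setLIntegral_le_lintegral _ _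
    _ = ENNReal.ofReal (∫ z, (l ^ 2)⁻¹ * (C / l) * (1 + ‖l⁻¹ • z‖) ^ (-(3 : ℝ))) := by
        rw [ofReal_integral_eq_lintegral_ofReal hint2]
        exact Filter.Eventually.of_forall fun z => by positivity
    _ = ENNReal.ofReal (C * J / l) := by
        congr 1
        rw [integral_const_mul, Measure.integral_comp_smul volume
          (fun w : ℝ × ℝ => (1 + ‖w‖) ^ (-(3 : ℝ))) l⁻¹]
        have hfr : Module.finrank ℝ (ℝ × ℝ) = 2 := by simp
        rw [hfr, inv_pow, inv_inv, abs_of_pos (by positivity), smul_eq_mul, ← hJ]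
        field_simp

theorem revc (hLE : T_LE) (hDEC : T_DEC) (hCUT : T_CUT) (hTCU : T_TCU) : T_REVC := by
  obtain ⟨C, hC⟩ := hLE
  obtain ⟨C1, hC10, hC1⟩ := cap_tail hDEC hCUT
  obtain ⟨-, -, hcap, -, hcard⟩ := hCUT
  refine ⟨C * (9 + Real.toNNReal (1000 * C1 ^ 2)), ?_⟩
  intro a ha l r s y₀ b hl hr hb
  have hl0 : 0 < l := by linarith
  have hr0 : 0 < r := by nlinarith
  have hbT : TC (fun ζ => e (s * ph a ζ) * b ζ) := by
    refine hTCU a ha s b hb.1 ?_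
    intro ζ hζ
    have := (hb.2 ζ hζ).1
    linarith
  have h1 : ∀ c : ℤ × ℤ, U a s (fun ζ => cp l c ζ * b ζ) =
      Fi (fun ζ => cp l c ζ * (e (s * ph a ζ) * b ζ)) := by
    intro c
    funext y
    unfold U
    congr 1
    funext ζ
    ring
  have hm : ∀ ζ : ℝ × ℝ, ∑ c : capsQ l, ‖cp l c ζ‖ₑ ^ 2 ≤ 9 := by
    intro ζ
    rw [Finset.sum_coe_sort (capsQ l) (fun c => ‖cp l c ζ‖ₑ ^ 2)]
    set T : Finset (ℤ × ℤ) := Finset.Icc ⌈l * ζ.1 - 1⌉ ⌊l * ζ.1 + 1⌋ ×ˢ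
      Finset.Icc ⌈l * ζ.2 - 1⌉ ⌊l * ζ.2 + 1⌋ with hT
    have hTc : T.card ≤ 9 := by
      rw [hT, Finset.card_product]
      exact Nat.mul_le_mul (icc3 _) (icc3 _)
    have hz : ∀ c ∉ T, ‖cp l c ζ‖ₑ ^ 2 = 0 := by
      intro c hc
      by_contra hne
      apply hc
      have hcp : cp l c ζ ≠ 0 := by
        intro h
        apply hne
        rw [h]
        simp
      obtain ⟨h4, h5⟩ := (hcap l c hl0).2.2.2.2.1 ζ hcp
      rw [abs_le] at h4 h5
      simp only [hT, Finset.mem_product, Finset.mem_Icc, Int.ceil_le, Int.le_floor]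
      refine ⟨⟨?_, ?_⟩, ?_, ?_⟩ <;> linarith [h4.1, h4.2, h5.1, h5.2]
    calc ∑ c ∈ capsQ l, ‖cp l c ζ‖ₑ ^ 2 ≤ ∑ c ∈ T, ‖cp l c ζ‖ₑ ^ 2 := by
          classical
          rw [← Finset.sum_filter_add_sum_filter_not (capsQ l) (fun c => c ∈ T),
            Finset.sum_eq_zero (s := (capsQ l).filter (fun c => c ∉ T))
              (fun c hc => hz c (Finset.mem_filter.1 hc).2), add_zero]
          refine Finset.sum_le_sum_of_subset ?_
          intro c hc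
          exact (Finset.mem_filter.1 hc).2
      _ ≤ ∑ c ∈ T, 1 := by
          refine Finset.sum_le_sum fun c _ => ?_
          have := (hcap l c hl0).2.2.1 ζ
          have h2 : ‖cp l c ζ‖ₑ ≤ 1 := by
            rw [← ofReal_norm, ← ENNReal.ofReal_one]
            exact ENNReal.ofReal_le_ofReal this
          exact pow_le_one₀ bot_le h2
      _ = (T.card : ℝ≥0∞) := by simp
      _ ≤ 9 := by exact_mod_cast hTc
  have hA : ∑ c : capsQ l, (tailI r 0 (cp l c)) ^ 2 ≤ ENNReal.ofReal (1000 * C1 ^ 2) := by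
    have h2 : ∀ c : capsQ l, (tailI r 0 (cp l c)) ^ 2 ≤ ENNReal.ofReal (C1 / l) ^ 2 := fun c =>
      pow_le_pow_left₀ bot_le (hC1 l r c (by linarith) hr) 2
    calc ∑ c : capsQ l, (tailI r 0 (cp l c)) ^ 2 ≤ ∑ c : capsQ l, ENNReal.ofReal (C1 / l) ^ 2 :=
          Finset.sum_le_sum fun c _ => h2 c
      _ = ENNReal.ofReal ((capsQ l).card * (C1 / l) ^ 2) := by
          rw [Finset.sum_const, nsmul_eq_mul, ENNReal.ofReal_mul (by positivity),
            ENNReal.ofReal_natCast, ENNReal.ofReal_pow (by positivity)]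
          simp
      _ ≤ _ := by
          apply ENNReal.ofReal_le_ofReal
          calc ((capsQ l).card : ℝ) * (C1 / l) ^ 2 ≤ (1000 * l ^ 2) * (C1 / l) ^ 2 := by
                gcongr
                exact hcard l hl
            _ = _ := by field_simp
  have := hC (capsQ l) (fun c => cp l c) r 0 y₀ 9 (ENNReal.ofReal (1000 * C1 ^ 2)) _ hr0
    (fun c => (hcap l c hl0).1) hbT hm hA
  simp only [h1]
  rw [← Finset.sum_coe_sort (capsQ l)
    (fun c => En r y₀ (Fi (fun ζ => cp l c ζ * (e (s * ph a ζ) * b ζ))))]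
  refine this.trans (le_of_eq ?_)
  rw [sub_zero]
  push_cast
  rfl

end Pool.Agent.H33.LS.REVC
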